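import Mathlib
import Pool.Agent.H351R3.NotKan

/-!
# Fibrancy of `Ex² N C` is not invariant under passing to the opposite category

Let `C` be the poset with five elements `a < b > c < d > e`. Every element of `C` has a least upper
bound with `c`, and this implies that `Ex² N C` is a Kan complex: a monotone map `D` defined on the
chains contained in a subset `A` of a poset is extended to all chains `τ` by `D(τ ∩ A) ⊔ c` if `τ`
meets `A` and is not contained in `A`, and by `c` if `τ` does not meet `A`. The opposite poset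
`a > b < c > d < e` is a fence whose end points are maximal and which is too long for `Ex² N` to be a
Kan complex: the concatenation of two edges of `Ex² N` leading from `a` to `e` can not be filled in.

The functor `SSet.ex` (the right adjoint of barycentric subdivision), the nerve and the predicate
`SSet.KanComplex` are those of Mathlib.
-/

namespace Pool.Agent.Results.MP_bcd555_gt.DualityFails

open CategoryTheory Opposite PartialOrder Pool.Agent.H351R3

open Classical in
/-- If every element of the poset `C` has a least upper bound with a fixed element `c`, then `C` has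
the horn filling property for `Ex^(k+2)`. -/
theorem hornExt_of_sup (k : ℕ) (C : PartOrd.{0}) (c : C) (s : C → C)
    (hs : ∀ x, IsLUB {x, c} (s x)) : HornExt (k + 2) C := by
  have hx : ∀ x, x ≤ s x := fun x => (hs x).1 (Or.inl rfl)
  have hc : ∀ x, c ≤ s x := fun x => (hs x).1 (Or.inr rfl)
  have hmono : ∀ x y, x ≤ y → s x ≤ s y := by
    intro x y hxy
    refine (hs x).2 ?_
    rintro z (rfl | hz)
    · exact hxy.trans (hx y)
    · rw [Set.mem_singleton_iff] at hz
      rw [hz]
      exact hc y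
  intro m i D hD
  let Q : PartOrd.{0} := (chN (k + 1)).obj (Od.obj (SimplexCategory.mk (m + 1)))
  obtain ⟨E, hE⟩ := exists_glue (k + 2) C c hD
  let A : Set Q := hornReg (k + 1) m i
  have hEmono : ∀ τ ∈ chainsIn (Q := Q) A, ∀ τ' ∈ chainsIn (Q := Q) A, τ ≤ τ' →
      (E τ : C) ≤ (E τ' : C) := by
    intro τ hτ τ' hτ' hle
    obtain ⟨j, hj, hreg'⟩ := chainsIn_hornReg (k + 1) m i (by omega) τ' hτ'
    have hreg := reg_lower (k + 1) _ (facet m j) (x := τ) (y := τ') hle hreg'
    obtain ⟨y, hy⟩ := (mem_face_iff (k + 2) m j _).1 hreg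
    obtain ⟨y', hy'⟩ := (mem_face_iff (k + 2) m j _).1 hreg'
    have h1 : E τ = (D j hj).hom y := by rw [← hE j hj y, hy]
    have h2 : E τ' = (D j hj).hom y' := by rw [← hE j hj y', hy']
    have h3 : y ≤ y' := by
      refine emb_iter (k + 2) (delta_emb m j) _ _ ?_
      rw [hy, hy']
      exact hle
    have h4 : (D j hj).hom y ≤ (D j hj).hom y' := (D j hj).hom.monotone h3
    exact (h1.trans_le h4).trans_eq h2.symm
  let F : NonemptyFiniteChains Q → C := fun τ =>
    if τ ∈ chainsIn (Q := Q) A then E τ else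
      if h : ∃ x ∈ τ.finset, x ∈ A then s (E (part A τ h)) else c
  have hF1 : ∀ τ ∈ chainsIn (Q := Q) A, F τ = E τ := fun τ hτ => if_pos hτ
  have hF2 : ∀ τ, τ ∉ chainsIn (Q := Q) A → ∀ h : ∃ x ∈ τ.finset, x ∈ A,
      F τ = s (E (part A τ h)) := by
    intro τ hτ h
    change (if τ ∈ chainsIn (Q := Q) A then E τ else
      if h : ∃ x ∈ τ.finset, x ∈ A then s (E (part A τ h)) else c) = _
    rw [if_neg hτ, dif_pos h]
  have hF3 : ∀ τ, τ ∉ chainsIn (Q := Q) A → (¬ ∃ x ∈ τ.finset, x ∈ A) → F τ = c := by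
    intro τ hτ h
    change (if τ ∈ chainsIn (Q := Q) A then E τ else
      if h : ∃ x ∈ τ.finset, x ∈ A then s (E (part A τ h)) else c) = _
    rw [if_neg hτ, dif_neg h]
  have hFmono : Monotone F := by
    intro τ τ' hle
    by_cases hτ' : τ' ∈ chainsIn (Q := Q) A
    · have hτ : τ ∈ chainsIn (Q := Q) A := chainsIn_lower A hle hτ'
      rw [hF1 τ hτ, hF1 τ' hτ']
      exact hEmono τ hτ τ' hτ' hle
    · by_cases h' : ∃ x ∈ τ'.finset, x ∈ A
      · rw [hF2 τ' hτ' h']
        by_cases hτ : τ ∈ chainsIn (Q := Q) A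
        · rw [hF1 τ hτ]
          refine (hEmono τ hτ _ part_mem ?_).trans (hx _)
          intro x hxτ
          exact mem_part.2 ⟨hle hxτ, hτ x hxτ⟩
        · by_cases h : ∃ x ∈ τ.finset, x ∈ A
          · rw [hF2 τ hτ h]
            refine hmono _ _ (hEmono _ part_mem _ part_mem ?_)
            intro x hxτ
            have h1 := mem_part.1 hxτ
            exact mem_part.2 ⟨hle h1.1, h1.2⟩
          · rw [hF3 τ hτ h]
            exact hc _
      · rw [hF3 τ' hτ' h']
        have h : ¬ ∃ x ∈ τ.finset, x ∈ A := by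
          rintro ⟨x, hxτ, hxA⟩
          exact h' ⟨x, hle hxτ, hxA⟩
        have hτ : τ ∉ chainsIn (Q := Q) A := by
          intro hτ
          obtain ⟨x, hxτ⟩ := τ.nonempty
          exact h ⟨x, hxτ, hτ x hxτ⟩
        rw [hF3 τ hτ h]
  refine ⟨PartOrd.ofHom ⟨F, hFmono⟩, fun j hj => ?_⟩
  refine PartOrd.ext (fun y => ?_)
  have hmem : ((chN (k + 2)).map (Od.map (SimplexCategory.δ j))).hom y ∈
      reg (k + 2) _ (facet m j) := (mem_face_iff (k + 2) m j _).2 ⟨y, rfl⟩
  have hmem' : (((chN (k + 2)).map (Od.map (SimplexCategory.δ j))).hom y :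
      NonemptyFiniteChains Q) ∈ chainsIn A :=
    fun x hx => ⟨j, hj, hmem x hx⟩
  have h5 := hF1 _ hmem'
  rw [← hE j hj y]
  exact h5

/-- The poset with five elements `0 < 1 > 2 < 3 > 4`. -/
abbrev M5 : Type := (Fence 2)ᵒᵈ

/-- the middle element -/
def mid : M5 := OrderDual.toDual ⟨2, by norm_num, by norm_num⟩

/-- the least upper bound with the middle element -/
def sup5 (x : M5) : M5 :=
  OrderDual.toDual ⟨if (OrderDual.ofDual x).val ≤ 1 then 1 else
      if (OrderDual.ofDual x).val = 2 then 2 else 3, by split_ifs <;> norm_num,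
    by split_ifs <;> norm_num⟩

lemma sup5_isLUB (x : M5) : IsLUB {x, mid} (sup5 x) := by
  obtain ⟨v, h0, h4⟩ := x
  have h4' : v ≤ 4 := by push_cast at h4; linarith
  constructor
  · rintro z (rfl | hz)
    · change _ ∨ _
      change (if v ≤ 1 then (1 : ℤ) else if v = 2 then 2 else 3) = v ∨
        ((if v ≤ 1 then (1 : ℤ) else if v = 2 then 2 else 3) % 2 = 1 ∧
        (v = (if v ≤ 1 then (1 : ℤ) else if v = 2 then 2 else 3) + 1 ∨
        v = (if v ≤ 1 then (1 : ℤ) else if v = 2 then 2 else 3) - 1))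
      split_ifs <;> omega
    · rw [Set.mem_singleton_iff] at hz
      subst hz
      change (if v ≤ 1 then (1 : ℤ) else if v = 2 then 2 else 3) = 2 ∨
        ((if v ≤ 1 then (1 : ℤ) else if v = 2 then 2 else 3) % 2 = 1 ∧
        (2 = (if v ≤ 1 then (1 : ℤ) else if v = 2 then 2 else 3) + 1 ∨
        2 = (if v ≤ 1 then (1 : ℤ) else if v = 2 then 2 else 3) - 1))
      split_ifs <;> omega
  · intro z hz
    obtain ⟨w, hw0, hw4⟩ := z
    have h1 : w = v ∨ (w % 2 = 1 ∧ (v = w + 1 ∨ v = w - 1)) := hz (Or.inl rfl)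
    have h2 : w = 2 ∨ (w % 2 = 1 ∧ (2 = w + 1 ∨ 2 = w - 1)) := hz (Or.inr rfl)
    change w = (if v ≤ 1 then (1 : ℤ) else if v = 2 then 2 else 3) ∨
      (w % 2 = 1 ∧ ((if v ≤ 1 then (1 : ℤ) else if v = 2 then 2 else 3) = w + 1 ∨
      (if v ≤ 1 then (1 : ℤ) else if v = 2 then 2 else 3) = w - 1))
    split_ifs <;> omega

/-- the functor from the opposite of `M5` to the fence -/
def toFence : M5ᵒᵖ ⥤ Fence 2 where
  obj x := OrderDual.ofDual x.unop
  map f := homOfLE (leOfHom f.unop)

/-- its inverse -/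
def ofFence : Fence 2 ⥤ M5ᵒᵖ where
  obj x := op (OrderDual.toDual x)
  map f := (homOfLE (leOfHom f)).op

/-- The nerve of the opposite of `M5` is the nerve of the fence. -/
def nerveIso : nerve M5ᵒᵖ ≅ nerve (Fence 2) where
  hom := nerveMap toFence
  inv := nerveMap ofFence
  hom_inv_id := rfl
  inv_hom_id := rfl

instance finite_M5 : Finite M5 := by
  have h : Function.Injective (fun x : Fence 2 => (⟨x.val, x.nonneg, x.le_two_mul⟩ :
      Set.Icc (0 : ℤ) (2 * (2 : ℕ)))) := by
    intro x y hxy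
    exact Fence.ext (congrArg (fun z : Set.Icc (0 : ℤ) (2 * (2 : ℕ)) => (z : ℤ)) hxy)
  exact Finite.of_injective (α := Fence 2) _ h

open SSet.modelCategoryQuillen in
lemma kan_of_iso {X Y : SSet.{0}} (e : X ≅ Y) (h : SSet.KanComplex X) : SSet.KanComplex Y := by
  have := h
  exact HomotopicalAlgebra.isFibrant_of_fibration e.inv

/-- **Answer to the question: yes.** There is a category `C`, in fact a finite poset, such that
`Ex²` of the nerve of `C` is a Kan complex, while `Ex²` of the nerve of the opposite category of `C`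
is not a Kan complex. -/
theorem result : ∃ (C : Type) (_ : PartialOrder C) (_ : Finite C),
    SSet.KanComplex (SSet.ex.{0}.obj (SSet.ex.{0}.obj (nerve C))) ∧
      ¬ SSet.KanComplex (SSet.ex.{0}.obj (SSet.ex.{0}.obj (nerve Cᵒᵖ))) := by
  refine ⟨M5, inferInstance, inferInstance, ?_, ?_⟩
  · exact (kan_iff 2 (PartOrd.of M5)).2
      (hornExt_of_sup 0 (PartOrd.of M5) mid sup5 sup5_isLUB)
  · intro h
    refine not_hornExt_fence 1 2 le_rfl ((kan_iff 2 (fenceP 2)).1 ?_)
    exact kan_of_iso (SSet.ex.{0}.mapIso (SSet.ex.{0}.mapIso nerveIso)) h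

end Pool.Agent.Results.MP_bcd555_gt.DualityFails
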